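import Mathlib
import Pool.Agent.H.MP_34b196_pr.C

namespace Pool.Agent.Results.MP_2fa7ec_pr.Dichotomy

open MeasureTheory Pool.Agent.H.MP_34b196_pr

theorem result {X : Type} [Countable X] [MeasurableSpace (X →₀ ℕ)] [DiscreteMeasurableSpace (X →₀ ℕ)]
    (μ : X → Measure (X →₀ ℕ)) [∀ x, IsProbabilityMeasure (μ x)] (hI : Irred μ) :
    (Fix μ).Finite ∨ ¬ (Fix μ).Countable :=
  (em (Fix μ).Countable).imp_left fun hc => (Set.toFinite _).subset (B.irr_fix hI hc)

end Pool.Agent.Results.MP_2fa7ec_pr.Dichotomy
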